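import Pool.Agent.Lib.MP_6bc78b_nt.MS.L.Iface

/-! Project MS, Part IIIa, module KD1: the derivative of the kernel, integrability and decay. -/

set_option autoImplicit false

open Filter Topology ArithmeticFunction MeasureTheory

namespace Pool.Agent.Lib.MP_6bc78b_nt.MS.L

namespace KD1

theorem DD_pos (T : ℝ) (hT : 1 < T) : 0 < DD T := by
  unfold DD
  have := Real.log_pos hT
  positivity

theorem log_pow (k : ℕ) (δ : ℝ) (hδ : 0 < δ) : ∃ C : ℝ, 0 < C ∧ ∀ u : ℝ, 0 < u →
    |Real.log u| ^ k ≤ C * (u ^ δ + u ^ (-δ)) := by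
  rcases Nat.eq_zero_or_pos k with rfl | hk
  · refine ⟨1, one_pos, fun u hu => ?_⟩
    rw [pow_zero, one_mul]
    rcases le_total 1 u with h | h
    · have h1 := Real.one_le_rpow h hδ.le
      have h2 : 0 < u ^ (-δ) := Real.rpow_pos_of_pos hu _
      linarith
    · have h1 := Real.one_le_rpow_of_pos_of_le_one_of_nonpos hu h (by linarith : -δ ≤ 0)
      have h2 : 0 < u ^ δ := Real.rpow_pos_of_pos hu _
      linarith
  · have hk' : (0 : ℝ) < k := by exact_mod_cast hk
    set ε : ℝ := δ / k with hε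
    have hε0 : 0 < ε := by positivity
    have key : ∀ m : ℝ, 1 ≤ m → Real.log m ^ k ≤ (1 / ε ^ k) * m ^ δ := by
      intro m hm
      have h1 : Real.log m ≤ m ^ ε / ε := Real.log_le_rpow_div (by linarith) hε0
      have h2 : Real.log m ^ k ≤ (m ^ ε / ε) ^ k :=
        pow_le_pow_left₀ (Real.log_nonneg hm) h1 k
      have h3 : (m ^ ε) ^ k = m ^ δ := by
        rw [← Real.rpow_natCast, ← Real.rpow_mul (by linarith)]
        congr 1
        rw [hε]; field_simp
      rw [div_pow, h3] at h2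
      calc Real.log m ^ k ≤ m ^ δ / ε ^ k := h2
        _ = _ := by ring
    refine ⟨1 / ε ^ k, by positivity, fun u hu => ?_⟩
    have h5 : 0 < u ^ (-δ) := Real.rpow_pos_of_pos hu _
    have h6 : 0 < u ^ δ := Real.rpow_pos_of_pos hu _
    have h7 : 0 < 1 / ε ^ k := by positivity
    rcases le_total 1 u with h | h
    · rw [abs_of_nonneg (Real.log_nonneg h)]
      calc Real.log u ^ k ≤ (1 / ε ^ k) * u ^ δ := key u h
        _ ≤ _ := mul_le_mul_of_nonneg_left (by linarith) h7.le
    · rw [abs_of_nonpos (Real.log_nonpos hu.le h), ← Real.log_inv]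
      have h8 : 1 ≤ u⁻¹ := (one_le_inv₀ hu).2 h
      calc Real.log u⁻¹ ^ k ≤ (1 / ε ^ k) * u⁻¹ ^ δ := key _ h8
        _ = (1 / ε ^ k) * u ^ (-δ) := by rw [Real.inv_rpow hu.le, Real.rpow_neg hu.le]
        _ ≤ _ := mul_le_mul_of_nonneg_left (by linarith) h7.le

theorem GG_le (T : ℝ) (hT : 1 < T) (u : ℝ) : GG T u ≤
    Real.exp (T ^ 2 / DD T ^ 2) * Real.exp (-(2 * Real.pi ^ 2 / DD T ^ 2) * u ^ 2) := by
  have hD := DD_pos T hT
  unfold GG
  rw [← Real.exp_add]
  apply Real.exp_le_exp.mpr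
  have h1 : T ^ 2 / DD T ^ 2 + -(2 * Real.pi ^ 2 / DD T ^ 2) * u ^ 2 =
      (T ^ 2 - 2 * Real.pi ^ 2 * u ^ 2) / DD T ^ 2 := by ring
  rw [h1]
  apply div_le_div_of_nonneg_right _ (by positivity)
  nlinarith [sq_nonneg (Real.pi * u - T)]

theorem GG_nonneg (T u : ℝ) : 0 ≤ GG T u := (Real.exp_pos _).le

theorem hasDeriv (j : ℕ) (T u : ℝ) (hT : 1 < T) (hu : 0 < u) : HasDerivAt (Fj T j)
    ((j : ℝ) * Real.log u ^ (j - 1) / u * GG T u -
      Real.log u ^ j * (4 * Real.pi * (2 * Real.pi * u - T) / DD T ^ 2 * GG T u)) u := by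
  have hD := DD_pos T hT
  have h1 : HasDerivAt (fun u : ℝ => Real.log u ^ j) ((j : ℝ) * Real.log u ^ (j - 1) * u⁻¹) u := by
    have := (Real.hasDerivAt_log hu.ne').fun_pow j
    simpa using this
  have h0 : HasDerivAt (fun u : ℝ => 2 * Real.pi * u - T) (2 * Real.pi) u := by
    simpa using ((hasDerivAt_id u).const_mul (2 * Real.pi)).sub_const T
  have h2 : HasDerivAt (fun u : ℝ => -(2 * Real.pi * u - T) ^ 2 / DD T ^ 2)
      (-(2 * (2 * Real.pi * u - T) * (2 * Real.pi)) / DD T ^ 2) u := by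
    have := ((h0.fun_pow 2).neg).div_const (DD T ^ 2)
    simpa using this
  have h3 := h2.exp
  have h4 := h1.mul h3
  have h5 : ((j : ℝ) * Real.log u ^ (j - 1) / u * GG T u -
      Real.log u ^ j * (4 * Real.pi * (2 * Real.pi * u - T) / DD T ^ 2 * GG T u)) =
      (j : ℝ) * Real.log u ^ (j - 1) * u⁻¹ * Real.exp (-(2 * Real.pi * u - T) ^ 2 / DD T ^ 2) +
        Real.log u ^ j * (Real.exp (-(2 * Real.pi * u - T) ^ 2 / DD T ^ 2) *
          (-(2 * (2 * Real.pi * u - T) * (2 * Real.pi)) / DD T ^ 2)) := by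
    unfold GG; ring
  rw [h5]
  exact h4

/-- the dominating functions -/
theorem int_dom (b : ℝ) (hb : 0 < b) (a : ℝ) (ha : -1 < a) (c : ℝ) :
    IntegrableOn (fun u : ℝ => c * (u ^ a * Real.exp (-b * u ^ 2))) (Set.Ioi 0) :=
  (integrableOn_rpow_mul_exp_neg_mul_sq hb ha).const_mul c

end KD1

open KD1

theorem kd1 : Kd1Statement := by
  refine ⟨fun j T u hT hu => hasDeriv j T u hT hu, ?_, ?_⟩
  · intro j T s hT hs
    have hD := DD_pos T hT
    have hT0 : 0 < T := by linarith
    set δ : ℝ := s / 2 with hδ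
    have hδ0 : 0 < δ := by positivity
    obtain ⟨C1, hC1, h1⟩ := log_pow (j - 1) δ hδ0
    obtain ⟨C2, hC2, h2⟩ := log_pow j δ hδ0
    set K : ℝ := Real.exp (T ^ 2 / DD T ^ 2) with hK
    have hK0 : 0 < K := Real.exp_pos _
    set b : ℝ := 2 * Real.pi ^ 2 / DD T ^ 2 with hb
    have hb0 : 0 < b := by have := Real.pi_pos; positivity
    set c1 : ℝ := j * C1 * K with hc1
    set c2 : ℝ := C2 * (4 * Real.pi * (2 * Real.pi) / DD T ^ 2) * K with hc2
    set c3 : ℝ := C2 * (4 * Real.pi * T / DD T ^ 2) * K with hc3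
    have hdom : IntegrableOn (fun u : ℝ =>
        c1 * (u ^ (s - 1 + δ) * Real.exp (-b * u ^ 2)) +
        c1 * (u ^ (s - 1 - δ) * Real.exp (-b * u ^ 2)) +
        c2 * (u ^ (s + 1 + δ) * Real.exp (-b * u ^ 2)) +
        c2 * (u ^ (s + 1 - δ) * Real.exp (-b * u ^ 2)) +
        c3 * (u ^ (s + δ) * Real.exp (-b * u ^ 2)) +
        c3 * (u ^ (s - δ) * Real.exp (-b * u ^ 2))) (Set.Ioi 0) := by
      refine ((((( int_dom b hb0 _ ?_ c1).add (int_dom b hb0 _ ?_ c1)).add
        (int_dom b hb0 _ ?_ c2)).add (int_dom b hb0 _ ?_ c2)).add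
        (int_dom b hb0 _ ?_ c3)).add (int_dom b hb0 _ ?_ c3) <;> (rw [hδ]; linarith)
    refine Integrable.mono' hdom ?_ ?_
    · have hm : Measurable (fun u : ℝ => |deriv (Fj T j) u| * u ^ s) := by
        have h3 := measurable_deriv (Fj T j)
        exact (h3.abs).mul (measurable_id.pow_const s)
      exact hm.aestronglyMeasurable
    · refine (ae_restrict_iff' measurableSet_Ioi).2 (Eventually.of_forall fun u hu => ?_)
      have hu0 : 0 < u := hu
      have hus : 0 < u ^ s := Real.rpow_pos_of_pos hu0 _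
      rw [Real.norm_of_nonneg (by positivity), (hasDeriv j T u hT hu0).deriv]
      have hG0 := GG_nonneg T u
      have hG := GG_le T hT u
      have hE0 : 0 < Real.exp (-b * u ^ 2) := Real.exp_pos _
      have hpi := Real.pi_pos
      have e1 : |(j : ℝ) * Real.log u ^ (j - 1) / u * GG T u| ≤
          (j : ℝ) * (C1 * (u ^ δ + u ^ (-δ))) / u * (K * Real.exp (-b * u ^ 2)) := by
        rw [abs_mul, abs_div, abs_mul, abs_pow, abs_of_nonneg hG0, abs_of_pos hu0,
          abs_of_nonneg (Nat.cast_nonneg j : (0 : ℝ) ≤ j)]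
        apply mul_le_mul _ hG hG0 (by positivity)
        apply div_le_div_of_nonneg_right _ hu0.le
        exact mul_le_mul_of_nonneg_left (h1 u hu0) (Nat.cast_nonneg j)
      have e2 : |Real.log u ^ j * (4 * Real.pi * (2 * Real.pi * u - T) / DD T ^ 2 * GG T u)| ≤
          (C2 * (u ^ δ + u ^ (-δ))) * (4 * Real.pi * (2 * Real.pi * u + T) / DD T ^ 2 *
            (K * Real.exp (-b * u ^ 2))) := by
        rw [abs_mul, abs_pow]
        apply mul_le_mul (h2 u hu0) _ (abs_nonneg _) (by positivity)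
        rw [abs_mul, abs_of_nonneg hG0, abs_div, abs_of_nonneg (sq_nonneg (DD T)), abs_mul,
          abs_of_pos (by positivity : (0 : ℝ) < 4 * Real.pi)]
        apply mul_le_mul _ hG hG0 (by positivity)
        apply div_le_div_of_nonneg_right _ (by positivity)
        apply mul_le_mul_of_nonneg_left _ (by positivity)
        rw [abs_le]
        constructor <;> nlinarith
      have e3 := abs_sub ((j : ℝ) * Real.log u ^ (j - 1) / u * GG T u)
        (Real.log u ^ j * (4 * Real.pi * (2 * Real.pi * u - T) / DD T ^ 2 * GG T u))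
      have r1 : u ^ (s - 1 + δ) = u ^ s / u * u ^ δ := by
        rw [Real.rpow_add hu0, Real.rpow_sub_one hu0.ne']
      have r2 : u ^ (s - 1 - δ) = u ^ s / u * u ^ (-δ) := by
        rw [sub_eq_add_neg (s - 1) δ, Real.rpow_add hu0, Real.rpow_sub_one hu0.ne']
      have r3 : u ^ (s + 1 + δ) = u ^ s * u * u ^ δ := by
        rw [Real.rpow_add hu0, Real.rpow_add_one hu0.ne']
      have r4 : u ^ (s + 1 - δ) = u ^ s * u * u ^ (-δ) := by
        rw [sub_eq_add_neg (s + 1) δ, Real.rpow_add hu0, Real.rpow_add_one hu0.ne']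
      have r5 : u ^ (s + δ) = u ^ s * u ^ δ := Real.rpow_add hu0 _ _
      have r6 : u ^ (s - δ) = u ^ s * u ^ (-δ) := by
        rw [sub_eq_add_neg s δ, Real.rpow_add hu0]
      rw [r1, r2, r3, r4, r5, r6]
      calc _ ≤ ((j : ℝ) * (C1 * (u ^ δ + u ^ (-δ))) / u * (K * Real.exp (-b * u ^ 2)) +
          (C2 * (u ^ δ + u ^ (-δ))) * (4 * Real.pi * (2 * Real.pi * u + T) / DD T ^ 2 *
            (K * Real.exp (-b * u ^ 2)))) * u ^ s :=
            mul_le_mul_of_nonneg_right (e3.trans (add_le_add e1 e2)) hus.le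
        _ = _ := by rw [hc1, hc2, hc3]; ring
  · intro j T s hT hs
    have hD := DD_pos T hT
    set δ : ℝ := s / 2 with hδ
    have hδ0 : 0 < δ := by positivity
    obtain ⟨C2, hC2, h2⟩ := log_pow j δ hδ0
    set K : ℝ := Real.exp (T ^ 2 / DD T ^ 2) with hK
    have hK0 : 0 < K := Real.exp_pos _
    set b : ℝ := 2 * Real.pi ^ 2 / DD T ^ 2 with hb
    have hb0 : 0 < b := by have := Real.pi_pos; positivity
    have hbd : ∀ u : ℝ, 0 < u → |Fj T j u * u ^ s| ≤
        C2 * K * ((u ^ (s + δ) + u ^ (s - δ)) * Real.exp (-b * u ^ 2)) := by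
      intro u hu0
      have hus : 0 < u ^ s := Real.rpow_pos_of_pos hu0 _
      have hG0 := GG_nonneg T u
      have hG := GG_le T hT u
      have r5 : u ^ (s + δ) = u ^ s * u ^ δ := Real.rpow_add hu0 _ _
      have r6 : u ^ (s - δ) = u ^ s * u ^ (-δ) := by
        rw [sub_eq_add_neg s δ, Real.rpow_add hu0]
      unfold Fj
      rw [abs_mul, abs_mul, abs_pow, abs_of_nonneg hG0, abs_of_pos hus, r5, r6]
      calc |Real.log u| ^ j * GG T u * u ^ s
          ≤ (C2 * (u ^ δ + u ^ (-δ))) * (K * Real.exp (-b * u ^ 2)) * u ^ s := by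
            apply mul_le_mul_of_nonneg_right _ hus.le
            exact mul_le_mul (h2 u hu0) hG hG0 (by positivity)
        _ = _ := by ring
    constructor
    · rw [tendsto_zero_iff_abs_tendsto_zero]
      have hlim : ∀ a : ℝ, Tendsto (fun u : ℝ => u ^ a * Real.exp (-b * u)) atTop (𝓝 0) :=
        fun a => tendsto_rpow_mul_exp_neg_mul_atTop_nhds_zero a b hb0
      have hlim2 : Tendsto (fun u : ℝ => C2 * K * (u ^ (s + δ) * Real.exp (-b * u) +
          u ^ (s - δ) * Real.exp (-b * u))) atTop (𝓝 0) := by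
        have := ((hlim (s + δ)).add (hlim (s - δ))).const_mul (C2 * K)
        simpa using this
      refine squeeze_zero' (Eventually.of_forall fun u => abs_nonneg _) ?_ hlim2
      filter_upwards [eventually_ge_atTop (1 : ℝ)] with u hu
      have hu0 : 0 < u := by linarith
      refine (hbd u hu0).trans ?_
      rw [← add_mul]
      apply mul_le_mul_of_nonneg_left _ (by positivity)
      apply mul_le_mul_of_nonneg_left _ (by positivity)
      apply Real.exp_le_exp.mpr
      nlinarith [mul_pos hb0 hu0]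
    · rw [tendsto_zero_iff_abs_tendsto_zero]
      have hlim : ∀ a : ℝ, 0 < a → Tendsto (fun u : ℝ => u ^ a) (𝓝[>] 0) (𝓝 0) := by
        intro a ha
        have h := (Real.continuousAt_rpow_const 0 a (Or.inr ha.le)).tendsto
        rw [Real.zero_rpow ha.ne'] at h
        exact h.mono_left nhdsWithin_le_nhds
      have hlim2 : Tendsto (fun u : ℝ => C2 * K * (u ^ (s + δ) + u ^ (s - δ))) (𝓝[>] 0)
          (𝓝 0) := by
        have := ((hlim (s + δ) (by linarith)).add (hlim (s - δ) (by rw [hδ]; linarith))).const_mul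
          (C2 * K)
        simpa using this
      refine squeeze_zero' (Eventually.of_forall fun u => abs_nonneg _) ?_ hlim2
      filter_upwards [self_mem_nhdsWithin] with u hu
      have hu0 : 0 < u := hu
      refine (hbd u hu0).trans ?_
      apply mul_le_mul_of_nonneg_left _ (by positivity)
      have h9 : Real.exp (-b * u ^ 2) ≤ 1 := by
        rw [Real.exp_le_one_iff]
        have : 0 ≤ b * u ^ 2 := by positivity
        linarith
      calc (u ^ (s + δ) + u ^ (s - δ)) * Real.exp (-b * u ^ 2)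
          ≤ (u ^ (s + δ) + u ^ (s - δ)) * 1 := by
            apply mul_le_mul_of_nonneg_left h9
            have := Real.rpow_pos_of_pos hu0 (s + δ)
            have := Real.rpow_pos_of_pos hu0 (s - δ)
            positivity
        _ = _ := mul_one _

end Pool.Agent.Lib.MP_6bc78b_nt.MS.L
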